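import Pool.Agent.H34.TAM.Stmts2

/-!
Row TDR of the board `aut`
-/

set_option autoImplicit false

noncomputable section

open scoped TensorProduct

namespace Pool.AUT

open Pool.CGR Pool.CGS Pool.TAM MulOpposite

namespace H22

theorem d2_tmul {m : ℕ} (δ : Fr m →ₗ[ℂ] Fr m) (a : Fr m) (b : (Fr m)ᵐᵒᵖ) :
    d2 δ (a ⊗ₜ[ℂ] b) = δ a ⊗ₜ[ℂ] b + a ⊗ₜ[ℂ] op (δ (unop b)) := rfl

theorem tt_tmul {m : ℕ} (t : Fr m →ₗ[ℂ] ℂ) (a : Fr m) (b : (Fr m)ᵐᵒᵖ) :
    tt t (a ⊗ₜ[ℂ] b) = t a * t (unop b) := rfl

theorem re_tmul {m : ℕ} (t : Fr m →ₗ[ℂ] ℂ) (a : Fr m) (b : (Fr m)ᵐᵒᵖ) :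
    re t (a ⊗ₜ[ℂ] b) = t (unop b) • a + t a • unop b := rfl

theorem ph_tmul {m : ℕ} (φ : Fr m →ₐ[ℂ] Fr m) (a : Fr m) (b : (Fr m)ᵐᵒᵖ) :
    ph φ (a ⊗ₜ[ℂ] b) = φ a ⊗ₜ[ℂ] op (φ (unop b)) := rfl

end H22

theorem tdr_thm : TDRStmt := by
  intro m
  refine ⟨?_, fun t => ⟨?_, ?_, ?_⟩⟩
  · intro δ hδ z w
    induction z using TensorProduct.induction_on with
    | zero => rw [zero_mul, map_zero, zero_mul, zero_mul, add_zero]
    | add x y hx hy =>
      rw [add_mul, map_add, hx, hy, map_add, add_mul, add_mul]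
      abel
    | tmul a b =>
      induction w using TensorProduct.induction_on with
      | zero => rw [mul_zero, map_zero, mul_zero, mul_zero, add_zero]
      | add x y hx hy =>
        rw [mul_add, map_add, hx, hy, map_add, mul_add, mul_add]
        abel
      | tmul c d =>
        rw [Algebra.TensorProduct.tmul_mul_tmul, H22.d2_tmul, H22.d2_tmul, H22.d2_tmul, hδ,
          unop_mul, hδ, add_mul, mul_add, Algebra.TensorProduct.tmul_mul_tmul,
          Algebra.TensorProduct.tmul_mul_tmul, Algebra.TensorProduct.tmul_mul_tmul,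
          Algebra.TensorProduct.tmul_mul_tmul, TensorProduct.add_tmul, op_add,
          TensorProduct.tmul_add, op_mul, op_mul, op_unop, op_unop]
        abel
  · intro ht z w
    induction z using TensorProduct.induction_on with
    | zero => rw [zero_mul, mul_zero]
    | add x y hx hy => rw [add_mul, mul_add, map_add, map_add, hx, hy]
    | tmul a b =>
      induction w using TensorProduct.induction_on with
      | zero => rw [zero_mul, mul_zero]
      | add x y hx hy => rw [add_mul, mul_add, map_add, map_add, hx, hy]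
      | tmul c d =>
        rw [Algebra.TensorProduct.tmul_mul_tmul, Algebra.TensorProduct.tmul_mul_tmul,
          H22.tt_tmul, H22.tt_tmul, unop_mul, unop_mul, ht a c, ht (unop d) (unop b)]
  · intro δ z
    induction z using TensorProduct.induction_on with
    | zero => rw [map_zero, map_zero, map_zero, map_zero, map_zero]
    | add x y hx hy => rw [map_add, map_add, hx, hy, map_add, map_add, map_add]
    | tmul a b =>
      rw [H22.d2_tmul, H22.re_tmul, map_add, H22.tt_tmul, H22.tt_tmul, unop_op, map_add,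
        map_smul, map_smul, map_add, map_smul, map_smul, smul_eq_mul, smul_eq_mul]
      ring
  · intro φ z
    induction z using TensorProduct.induction_on with
    | zero => rw [map_zero, map_zero, map_zero]
    | add x y hx hy => rw [map_add, map_add, hx, hy, map_add]
    | tmul a b =>
      rw [H22.ph_tmul, H22.tt_tmul, H22.tt_tmul]
      rfl

end Pool.AUT
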